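import Pool.Agent.H.MP_95a67a_ag.Defs

set_option autoImplicit false
open MvPolynomial Finsupp Pool.Agent.H.MP_222440_ag Pool.Agent.H.MP_411355_ag Pool.Agent.H.MP_95a67a_ag

namespace Pool.Agent.Results.MP_95a67a_ag.Counter

theorem fan : IsFan ![![1, 0], ![1, 1], ![0, 1], ![-1, -1]] {{0, 1}, {1, 2}, {2, 3}, {3, 0}} where
  ray := by simp only [Set.mem_insert_iff, Set.mem_singleton_iff, exists_eq_or_imp, exists_eq_left]; decide
  indep := by
    rintro τ (rfl | rfl | rfl | rfl) <;> refine linearIndepOn_finset_iff.mpr fun g hg => ?_ <;>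
      have h0 := congrFun hg 0 <;> have h1 := congrFun hg 1 <;>
      rw [Finset.sum_pair (by decide)] at h0 h1 <;>
      simp at h0 h1 ⊢ <;> omega
  span := by
    have : ∀ a b : Fin 2 → ℤ, (∀ v : Fin 2 → ℤ, ∃ s t : ℤ, s * a 0 + t * b 0 = v 0 ∧ s * a 1 + t * b 1 = v 1) →
        Submodule.span ℤ {a, b} = ⊤ := fun a b h => eq_top_iff.mpr fun v _ => by
      obtain ⟨s, t, h1, h2⟩ := h v
      exact Submodule.mem_span_pair.mpr ⟨s, t, funext (Fin.forall_fin_two.mpr ⟨h1, h2⟩)⟩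
    rintro τ (rfl | rfl | rfl | rfl) <;> rw [Finset.coe_pair, Set.image_pair] <;> refine this _ _ fun v => ?_
    · exact ⟨v 0 - v 1, v 1, by simp⟩
    · exact ⟨v 0, v 1 - v 0, by simp⟩
    · exact ⟨v 1 - v 0, - v 0, by simp⟩
    · exact ⟨- v 1, v 0 - v 1, by simp⟩
  face := by
    intro τ hτ τ' hτ'
    refine Set.Subset.antisymm ?_ fun v ⟨c, h1, h2, h3⟩ => ⟨⟨c, h1, fun ρ e => h2 ρ fun e' => e (Finset.mem_inter.mp e').1,
      h3⟩, c, h1, fun ρ e => h2 ρ fun e' => e (Finset.mem_inter.mp e').2, h3⟩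
    rintro v ⟨⟨c, h1, h2, h3⟩, c', h4, h5, h6⟩
    refine ⟨c, h1, ?_, h3⟩
    have h7 := fun i => (h3 i).symm.trans (h6 i)
    simp only [Fin.forall_fin_succ, Fin.sum_univ_four] at h1 h2 h4 h5 h7 ⊢
    rcases hτ with rfl | rfl | rfl | rfl <;> rcases hτ' with rfl | rfl | rfl | rfl <;>
      simp at h1 h2 h4 h5 h7 ⊢ <;> grind
  complete := fun v => by
    simp only [Set.mem_insert_iff, Set.mem_singleton_iff, exists_eq_or_imp, exists_eq_left, cone]
    rcases le_total (v 0) (v 1) with h | h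
    · rcases le_total (v 0) 0 with h' | h'
      · exact .inr (.inr (.inl ⟨![0, 0, v 1 - v 0, - v 0], by simp [Fin.forall_fin_succ, Fin.sum_univ_four, h, h']⟩))
      · exact .inr (.inl ⟨![0, v 0, v 1 - v 0, 0], by simp [Fin.forall_fin_succ, Fin.sum_univ_four, h, h']⟩)
    · rcases le_total (v 1) 0 with h' | h'
      · exact .inr (.inr (.inr ⟨![v 0 - v 1, 0, 0, - v 1], by simp [Fin.forall_fin_succ, Fin.sum_univ_four, h, h']⟩))
      · exact .inl ⟨![v 0 - v 1, v 1, 0, 0], by simp [Fin.forall_fin_succ, Fin.sum_univ_four, h, h']⟩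
  proj := by
    refine ⟨![1, 1, 1, 1], ?_⟩
    rintro τ (rfl | rfl | rfl | rfl)
    exacts [⟨![-1, 0], by decide⟩, ⟨![0, -1], by decide⟩, ⟨![2, -1], by decide⟩, ⟨![-1, 2], by decide⟩]

theorem result : ∃ (N n : ℕ) (u : Fin N → Fin n → ℤ) (F : Set (Finset (Fin N))), IsFan u F ∧
    ∃ (G : Fin (n + 1) → MvPolynomial (Fin N) ℂ) (α : Fin (n + 1) → Pic u),
      (∀ i, G i ≠ 0 ∧ IsWeightedHomogeneous (deg u) (G i) (α i) ∧ G i ∈ irr F) ∧
      (∀ p : Fin N → ℂ, (∀ i, eval p (G i) = 0) → ∀ b ∈ irr F, eval p b = 0) ∧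
      2 ≤ codim (deg u) (Ideal.span (Set.range G)) (crit (deg u) α) := by
  refine ⟨4, 2, _, _, fan, ![X 2 * X 3, X 0 * X 3 + X 1 * X 2 * X 2, X 0 * X 1 * X 1], ?_⟩
  generalize hu : (![![1, 0], ![1, 1], ![0, 1], ![-1, -1]] : Fin 4 → Fin 2 → ℤ) = u
  have h1 : deg u 3 = deg u 0 + deg u 1 := by
    rw [deg, deg, deg, ← Submodule.Quotient.mk_add, Submodule.Quotient.eq]
    exact ⟨![-1, 0], by subst hu; decide⟩
  have h2 : deg u 2 = deg u 0 := by
    rw [deg, deg, Submodule.Quotient.eq]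
    exact ⟨![-1, 1], by subst hu; decide⟩
  have hX := isWeightedHomogeneous_X ℂ (deg u)
  have hB : ∀ τ ∈ ({{0, 1}, {1, 2}, {2, 3}, {3, 0}} : Set (Finset (Fin 4))), ∀ a b, τᶜ = {a, b} → a ≠ b →
      X a * X b ∈ irr {{0, 1}, {1, 2}, {2, 3}, {3, 0}} := fun τ h a b e e' =>
    Ideal.subset_span ⟨τ, h, by simp only [e, Finset.prod_pair e']⟩
  refine ⟨![deg u 2 + deg u 3, deg u 0 + deg u 3, deg u 0 + deg u 1 + deg u 1], ?_, fun p hp b hb => ?_, ?_⟩
  · simp only [Fin.forall_fin_succ]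
    refine ⟨⟨by simp, (hX 2).mul (hX 3), hB {0, 1} (by simp) _ _ (by decide) (by decide)⟩,
      ⟨fun h => by simpa using congrArg (eval ![1, 0, 0, 1]) h, ((hX 0).mul (hX 3)).add ?_, add_mem
        (hB {1, 2} (by simp) _ _ (by decide) (by decide))
        (Ideal.mul_mem_right _ _ (hB {3, 0} (by simp) _ _ (by decide) (by decide)))⟩,
      ⟨by simp, ((hX 0).mul (hX 1)).mul (hX 1),
        Ideal.mul_mem_right _ _ (hB {2, 3} (by simp) _ _ (by decide) (by decide))⟩, finZeroElim⟩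
    convert ((hX 1).mul (hX 2)).mul (hX 2) using 1
    simp only [Matrix.cons_val_succ, Matrix.cons_val_zero, h1, h2]; abel
  · refine (Ideal.span_le (I := RingHom.ker (eval p))).mpr ?_ hb
    simp only [Fin.forall_fin_succ] at hp
    simp at hp
    rintro _ ⟨τ, rfl | rfl | rfl | rfl, rfl⟩
    · simp [show ({0, 1} : Finset (Fin 4))ᶜ = {2, 3} by decide]; grind
    · simp [show ({1, 2} : Finset (Fin 4))ᶜ = {0, 3} by decide]; grind
    · simp [show ({2, 3} : Finset (Fin 4))ᶜ = {0, 1} by decide]; grind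
    · simp [show ({3, 0} : Finset (Fin 4))ᶜ = {1, 2} by decide]; grind
  let m : Fin 3 → Fin 4 →₀ ℕ := ![single 3 2, single 0 1 + single 1 1 + single 3 1, single 1 2 + single 2 2]
  let ψ : MvPolynomial (Fin 4) ℂ →ₗ[ℂ] ℂ × ℂ := (lcoeff ℂ (m 0)).prod (lcoeff ℂ (m 1) - lcoeff ℂ (m 2))
  refine le_trans (by simp [one_add_one_eq_two]) (LinearMap.rank_le_of_surjective (Submodule.liftQ _ (ψ.domRestrict _) fun f hf => ?_)
    fun y => ?_)
  · obtain ⟨g, hg⟩ := Ideal.mem_span_range_iff_exists_fun.mp hf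
    change ψ f.1 = 0
    rw [show f.1 = _ from hg.symm]
    simp [Fin.sum_univ_three, ψ, m, mul_add, ← mul_assoc, coeff_mul_X', sub_eq_zero]
    congr 1; ext i; fin_cases i <;> simp
  · refine ⟨Submodule.Quotient.mk ⟨monomial (m 0) y.1 + monomial (m 1) y.2, add_mem
      (isWeightedHomogeneous_monomial _ _ _ ?_) (isWeightedHomogeneous_monomial _ _ _ ?_)⟩, ?_⟩
    · simp [m, crit, weight_single, Fin.sum_univ_succ, h1, h2]; abel
    · simp [m, crit, weight_single, Fin.sum_univ_succ, h1, h2]; abel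
    · have : ∀ i j, m i = m j ↔ i = j := fun i j => ⟨fun h => by
        have := DFunLike.congr_fun h 3
        fin_cases i <;> fin_cases j <;> simp [m] at this ⊢, congrArg m⟩
      change ψ (_ + _) = y
      simp [ψ, coeff_monomial, this]

end Pool.Agent.Results.MP_95a67a_ag.Counter
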